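import Pool.Agent.N879.GD.Stm

/-!
# Project GD, part SUM: the dyadic decomposition of the sum over the pairs off the diagonal
-/

set_option autoImplicit false

namespace Pool.Agent.Helper20.GD

open Complex MeasureTheory Set
open Pool.Agent.N879.GD
open Pool.Agent.Y969.GP (PS)

theorem GG_conj (b : ℕ) (T x ω : ℝ) : (starRingEnd ℂ) (GG b T x ω) = GG b T (-x) (-ω) := by
  unfold GG
  rw [← integral_conj]
  refine integral_congr_ae (Filter.Eventually.of_forall fun u => ?_)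
  simp only [map_mul, conj_ofReal]
  congr 1
  rw [← Complex.exp_conj, map_mul, conj_I, conj_ofReal]
  congr 1
  push_cast
  ring

theorem bt_conj (σ : ℝ) (b : ℕ) (T y ω : ℝ) (m n : ℕ) :
    (starRingEnd ℂ) (bt σ b T y ω m n) = bt σ b T (-y) (-ω) n m := by
  unfold bt
  rw [map_mul, map_mul, conj_ofReal, GG_conj, ← Complex.exp_conj]
  have e1 : (n : ℝ) * m = (m : ℝ) * n := mul_comm _ _
  have e2 : -(Real.log n - Real.log m) = Real.log m - Real.log n := by ring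
  rw [e1, e2]
  congr 3
  rw [map_neg, map_mul, map_add, map_mul, conj_I, conj_ofReal, conj_ofReal, conj_ofReal]
  push_cast
  ring

/-- the length of the block -/
def LL (X m i : ℕ) : ℕ := min (2 ^ i) (X / m + 1 - (m + 2 ^ i))

theorem LL_le (X m i : ℕ) : LL X m i ≤ 2 ^ i := min_le_left _ _

theorem LL_pos {X m i : ℕ} (h : LL X m i ≠ 0) : m * (m + 2 ^ i) ≤ X := by
  have h1 : m + 2 ^ i ≤ X / m := by
    unfold LL at h
    by_contra h2
    push Not at h2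
    apply h
    have : X / m + 1 - (m + 2 ^ i) = 0 := by omega
    rw [this]
    simp
  calc m * (m + 2 ^ i) ≤ m * (X / m) := Nat.mul_le_mul_left _ h1
    _ ≤ X := Nat.mul_div_le _ _

/-- the dyadic decomposition -/
theorem dyadic_sum {M : Type*} [AddCommMonoid M] (X : ℕ) (f : ℕ → ℕ → M) :
    ∑ p ∈ (PS X).filter (fun p => p.1 < p.2), f p.1 p.2 =
      ∑ m ∈ Finset.Icc 1 X, ∑ i ∈ Finset.range (Nat.log 2 X + 1),
        ∑ r ∈ Finset.range (LL X m i), f m (m + 2 ^ i + r) := by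
  have e : ∑ m ∈ Finset.Icc 1 X, ∑ i ∈ Finset.range (Nat.log 2 X + 1),
        ∑ r ∈ Finset.range (LL X m i), f m (m + 2 ^ i + r) =
      ∑ z ∈ (Finset.Icc 1 X).sigma (fun m => (Finset.range (Nat.log 2 X + 1)).sigma
        (fun i => Finset.range (LL X m i))), f z.1 (z.1 + 2 ^ z.2.1 + z.2.2) := by
    rw [Finset.sum_sigma]
    refine Finset.sum_congr rfl fun m _ => ?_
    rw [Finset.sum_sigma]
  rw [e]
  symm
  refine Finset.sum_bij (fun z _ => (z.1, z.1 + 2 ^ z.2.1 + z.2.2)) ?_ ?_ ?_ ?_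
  · rintro ⟨m, i, r⟩ h
    simp only [Finset.mem_sigma, Finset.mem_Icc, Finset.mem_range] at h
    obtain ⟨⟨h1, h2⟩, h3, h4⟩ := h
    have h5 : r < X / m + 1 - (m + 2 ^ i) := lt_of_lt_of_le h4 (min_le_right _ _)
    have h6 : m + 2 ^ i + r ≤ X / m := by omega
    have h7 : m * (m + 2 ^ i + r) ≤ X :=
      (Nat.mul_le_mul_left _ h6).trans (Nat.mul_div_le _ _)
    have h8 : X / m ≤ X := Nat.div_le_self _ _
    have h9 : 0 < 2 ^ i := by positivity
    simp only [PS, Finset.mem_filter, Finset.mem_product, Finset.mem_Icc]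
    refine ⟨⟨⟨⟨h1, h2⟩, by omega, by omega⟩, h7⟩, by omega⟩
  · rintro ⟨m, i, r⟩ h ⟨m', i', r'⟩ h' heq
    simp only [Finset.mem_sigma, Finset.mem_Icc, Finset.mem_range] at h h'
    simp only [Prod.mk.injEq] at heq
    obtain ⟨e1, e2⟩ := heq
    subst e1
    have h4 : r < 2 ^ i := lt_of_lt_of_le h.2.2 (min_le_left _ _)
    have h4' : r' < 2 ^ i' := lt_of_lt_of_le h'.2.2 (min_le_left _ _)
    have e3 : 2 ^ i + r = 2 ^ i' + r' := by omega
    have e4 : i = i' := by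
      have a1 : Nat.log 2 (2 ^ i + r) = i :=
        (Nat.log_eq_iff (Or.inr ⟨by norm_num, by positivity⟩)).2 ⟨by omega, by
          rw [pow_succ]
          omega⟩
      have a2 : Nat.log 2 (2 ^ i' + r') = i' :=
        (Nat.log_eq_iff (Or.inr ⟨by norm_num, by positivity⟩)).2 ⟨by omega, by
          rw [pow_succ]
          omega⟩
      rw [← a1, ← a2, e3]
    subst e4
    have e5 : r = r' := by omega
    subst e5
    rfl
  · rintro ⟨m, n⟩ h
    simp only [PS, Finset.mem_filter, Finset.mem_product, Finset.mem_Icc] at h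
    obtain ⟨⟨⟨⟨h1, h2⟩, h3, h4⟩, h5⟩, h6⟩ := h
    have h7 : n ≤ X / m := (Nat.le_div_iff_mul_le (by omega)).2 (by rw [mul_comm]; exact h5)
    have h8 : n - m ≠ 0 := by omega
    have h9 : 2 ^ Nat.log 2 (n - m) ≤ n - m := Nat.pow_log_le_self 2 h8
    have h10 : n - m < 2 ^ (Nat.log 2 (n - m) + 1) := Nat.lt_pow_succ_log_self (by norm_num) _
    rw [pow_succ] at h10
    refine ⟨⟨m, Nat.log 2 (n - m), n - m - 2 ^ Nat.log 2 (n - m)⟩, ?_, ?_⟩
    · simp only [Finset.mem_sigma, Finset.mem_Icc, Finset.mem_range, LL]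
      refine ⟨⟨h1, h2⟩, ?_, ?_⟩
      · exact Nat.lt_succ_of_le (Nat.log_mono_right (by omega))
      · refine lt_min (by omega) (by omega)
    · simp only [Prod.mk.injEq, true_and]
      omega
  · rintro ⟨m, i, r⟩ h
    rfl

/-- the sum over the pairs above the diagonal -/
theorem upper (σ : ℝ) (b : ℕ) (T y ω : ℝ) (X : ℕ) (g : ℕ → ℕ → ℝ)
    (h : ∀ m i L : ℕ, 1 ≤ m → L ≤ 2 ^ i → m * (m + 2 ^ i) ≤ X →
      ‖∑ r ∈ Finset.range L, bt σ b T y ω m (m + 2 ^ i + r)‖ ≤ g m i) :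
    ‖∑ p ∈ (PS X).filter (fun p => p.1 < p.2), bt σ b T y ω p.1 p.2‖ ≤
      ∑ m ∈ Finset.Icc 1 X, ∑ i ∈ Finset.range (Nat.log 2 X + 1),
        if m * (m + 2 ^ i) ≤ X then g m i else 0 := by
  rw [dyadic_sum X (fun m n => bt σ b T y ω m n)]
  refine (norm_sum_le _ _).trans (Finset.sum_le_sum fun m hm => ?_)
  refine (norm_sum_le _ _).trans (Finset.sum_le_sum fun i _ => ?_)
  have hm1 : 1 ≤ m := (Finset.mem_Icc.1 hm).1
  split_ifs with h1
  · exact h m i (LL X m i) hm1 (LL_le X m i) h1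
  · have h2 : LL X m i = 0 := by
      by_contra h3
      exact h1 (LL_pos h3)
    rw [h2]
    simp

/-- **the dyadic decomposition of the sum over all pairs off the diagonal** -/
theorem dyadic (σ : ℝ) (b : ℕ) (T y ω : ℝ) (X : ℕ) (g : ℕ → ℕ → ℝ)
    (h : ∀ y' ω' : ℝ, (y' = y ∧ ω' = ω) ∨ (y' = -y ∧ ω' = -ω) →
      ∀ m i L : ℕ, 1 ≤ m → L ≤ 2 ^ i → m * (m + 2 ^ i) ≤ X →
      ‖∑ r ∈ Finset.range L, bt σ b T y' ω' m (m + 2 ^ i + r)‖ ≤ g m i) :
    ‖∑ p ∈ (PS X).filter (fun p => p.1 ≠ p.2), bt σ b T y ω p.1 p.2‖ ≤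
      2 * ∑ m ∈ Finset.Icc 1 X, ∑ i ∈ Finset.range (Nat.log 2 X + 1),
        if m * (m + 2 ^ i) ≤ X then g m i else 0 := by
  have e1 : (PS X).filter (fun p => p.1 ≠ p.2) =
      (PS X).filter (fun p => p.1 < p.2) ∪ (PS X).filter (fun p => p.2 < p.1) := by
    ext p
    simp only [Finset.mem_filter, Finset.mem_union]
    constructor
    · rintro ⟨h1, h2⟩
      rcases lt_or_gt_of_ne h2 with h3 | h3
      · exact Or.inl ⟨h1, h3⟩
      · exact Or.inr ⟨h1, h3⟩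
    · rintro (⟨h1, h2⟩ | ⟨h1, h2⟩)
      · exact ⟨h1, h2.ne⟩
      · exact ⟨h1, h2.ne'⟩
  have e2 : Disjoint ((PS X).filter (fun p => p.1 < p.2))
      ((PS X).filter (fun p => p.2 < p.1)) := by
    rw [Finset.disjoint_left]
    intro p h1 h2
    have := (Finset.mem_filter.1 h1).2
    have := (Finset.mem_filter.1 h2).2
    omega
  rw [e1, Finset.sum_union e2]
  have e3 : ∑ p ∈ (PS X).filter (fun p => p.2 < p.1), bt σ b T y ω p.1 p.2 =
      (starRingEnd ℂ) (∑ p ∈ (PS X).filter (fun p => p.1 < p.2),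
        bt σ b T (-y) (-ω) p.1 p.2) := by
    rw [map_sum]
    refine Finset.sum_bij (fun p _ => (p.2, p.1)) ?_ ?_ ?_ ?_
    · intro p hp
      simp only [PS, Finset.mem_filter, Finset.mem_product, Finset.mem_Icc] at hp ⊢
      obtain ⟨⟨⟨⟨h1, h2⟩, h3, h4⟩, h5⟩, h6⟩ := hp
      exact ⟨⟨⟨⟨h3, h4⟩, h1, h2⟩, by rw [mul_comm]; exact h5⟩, h6⟩
    · rintro ⟨a, c⟩ _ ⟨a', c'⟩ _ heq
      simp only [Prod.mk.injEq] at heq ⊢
      exact ⟨heq.2, heq.1⟩
    · rintro ⟨a, c⟩ hp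
      refine ⟨(c, a), ?_, rfl⟩
      simp only [PS, Finset.mem_filter, Finset.mem_product, Finset.mem_Icc] at hp ⊢
      obtain ⟨⟨⟨⟨h1, h2⟩, h3, h4⟩, h5⟩, h6⟩ := hp
      exact ⟨⟨⟨⟨h3, h4⟩, h1, h2⟩, by rw [mul_comm]; exact h5⟩, h6⟩
    · rintro ⟨a, c⟩ _
      rw [bt_conj, neg_neg, neg_neg]
  have h1 := upper σ b T y ω X g (h y ω (Or.inl ⟨rfl, rfl⟩))
  have h2 := upper σ b T (-y) (-ω) X g (h (-y) (-ω) (Or.inr ⟨rfl, rfl⟩))
  rw [e3]
  refine (norm_add_le _ _).trans ?_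
  rw [RCLike.norm_conj, two_mul]
  exact add_le_add h1 h2

end Pool.Agent.Helper20.GD
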